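import Pool.Agent.H83.LI.DLF
import Pool.Agent.H87.QP.Targets2

/-!
# Theorem (RZ) (MP_c59857_nt), row DPS: the multiples of a prime, filters
-/

set_option autoImplicit false

namespace Pool.Agent.H83.QP

open Finset Pool.Agent.H18.MR Pool.Agent.H93.DE Pool.Agent.H6.N4D Pool.Agent.H93
  Pool.Agent.H93.ES Pool.Agent.H28.NW Pool.Agent.H87.QP Pool.Agent.H83.LI

lemma fl_FS (lam : ℕ → ℝ) (H L q n : ℕ) (c : ℕ → ℂ) : fl lam H L q n c = FS lam H q L n c := rfl

lemma sum_sub_le {H h : ℕ} (hh : h ≤ H) (g : ℕ → ℝ) (hg : ∀ k, 0 ≤ g k) :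
    ∑ h' ∈ range h, g (h - h') ≤ ∑ k ∈ Icc 1 H, g k := by
  have e : ∑ h' ∈ range h, g (h - h') = ∑ k ∈ (range h).image (fun h' => h - h'), g k := by
    rw [sum_image]
    intro a ha b hb hab
    rw [mem_coe, mem_range] at ha hb
    have : h - a = h - b := hab
    omega
  rw [e]
  apply sum_le_sum_of_subset_of_nonneg
  · intro k hk
    rw [mem_image] at hk
    obtain ⟨a, ha, rfl⟩ := hk
    rw [mem_range] at ha
    rw [mem_Icc]
    omega
  · intro k _ _; exact hg k

lemma sum_sub_le' {H h : ℕ} (g : ℕ → ℝ) (hg : ∀ k, 0 ≤ g k) :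
    ∑ h' ∈ Ioc h H, g (h' - h) ≤ ∑ k ∈ Icc 1 H, g k := by
  have e : ∑ h' ∈ Ioc h H, g (h' - h) = ∑ k ∈ (Ioc h H).image (fun h' => h' - h), g k := by
    rw [sum_image]
    intro a ha b hb hab
    rw [mem_coe, mem_Ioc] at ha hb
    have : a - h = b - h := hab
    omega
  rw [e]
  apply sum_le_sum_of_subset_of_nonneg
  · intro k hk
    rw [mem_image] at hk
    obtain ⟨a, ha, rfl⟩ := hk
    rw [mem_Ioc] at ha
    rw [mem_Icc]
    omega
  · intro k _ _; exact hg k

/-- the sum over the pairs of shifts -/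
lemma sum_pairs {H : ℕ} (g : ℕ → ℝ) (hg : ∀ k, 0 ≤ g k) (A B : ℝ) (hA : 0 ≤ A)
    (S : ℕ → ℕ → ℝ) (h1 : ∀ h ≤ H, ∀ h' ≤ H, h < h' → S h h' ≤ A * g (h' - h) + B)
    (h2 : ∀ h ≤ H, S h h ≤ B)
    (h3 : ∀ h ≤ H, ∀ h' ≤ H, h' < h → S h h' ≤ A * g (h - h') + B) :
    ∑ h ∈ range (H + 1), ∑ h' ∈ range (H + 1), S h h' ≤
      2 * ((H : ℝ) + 1) * (A * ∑ k ∈ Icc 1 H, g k) + ((H : ℝ) + 1) ^ 2 * B := by
  have key : ∀ h ∈ range (H + 1), ∑ h' ∈ range (H + 1), S h h' ≤
      2 * (A * ∑ k ∈ Icc 1 H, g k) + ((H : ℝ) + 1) * B := by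
    intro h hh
    rw [mem_range] at hh
    have hsp : range (H + 1) = range h ∪ ({h} ∪ Ioc h H) := by
      ext x; simp only [mem_range, mem_union, mem_singleton, mem_Ioc]; omega
    have hd1 : Disjoint (range h) ({h} ∪ Ioc h H) := by
      rw [Finset.disjoint_left]
      intro x hx hx'
      simp only [mem_range, mem_union, mem_singleton, mem_Ioc] at hx hx'
      omega
    have hd2 : Disjoint ({h} : Finset ℕ) (Ioc h H) := by simp
    rw [hsp, sum_union hd1, sum_union hd2, sum_singleton]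
    have e1 : ∑ h' ∈ range h, S h h' ≤ A * ∑ k ∈ Icc 1 H, g k + h * B := by
      calc ∑ h' ∈ range h, S h h' ≤ ∑ h' ∈ range h, (A * g (h - h') + B) := by
            apply sum_le_sum
            intro h' hh'
            rw [mem_range] at hh'
            exact h3 h (by omega) h' (by omega) hh'
        _ = A * ∑ h' ∈ range h, g (h - h') + h * B := by
            rw [sum_add_distrib, ← mul_sum, sum_const, card_range, nsmul_eq_mul]
        _ ≤ _ := by
            gcongr
            exact sum_sub_le (by omega) g hg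
    have e2 : ∑ h' ∈ Ioc h H, S h h' ≤ A * ∑ k ∈ Icc 1 H, g k + ((H - h : ℕ) : ℝ) * B := by
      calc ∑ h' ∈ Ioc h H, S h h' ≤ ∑ h' ∈ Ioc h H, (A * g (h' - h) + B) := by
            apply sum_le_sum
            intro h' hh'
            rw [mem_Ioc] at hh'
            exact h1 h (by omega) h' (by omega) hh'.1
        _ = A * ∑ h' ∈ Ioc h H, g (h' - h) + ((H - h : ℕ) : ℝ) * B := by
            rw [sum_add_distrib, ← mul_sum, sum_const, Nat.card_Ioc, nsmul_eq_mul]
        _ ≤ _ := by
            gcongr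
            exact sum_sub_le' g hg
    have e3 := h2 h (by omega)
    have e4 : ((H - h : ℕ) : ℝ) = (H : ℝ) - h := by
      rw [Nat.cast_sub (by omega)]
    rw [e4] at e2
    linarith
  calc ∑ h ∈ range (H + 1), ∑ h' ∈ range (H + 1), S h h'
      ≤ ∑ _h ∈ range (H + 1), (2 * (A * ∑ k ∈ Icc 1 H, g k) + ((H : ℝ) + 1) * B) :=
        sum_le_sum key
    _ = _ := by
        simp only [sum_const, card_range, nsmul_eq_mul]
        push_cast
        ring

/-- Row DPS. -/
theorem pf_DPS : T_DPS := by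
  intro lam H T q n c hL hqp hqT hc
  rw [fl_FS, fl_FS]
  have hq : 0 < q := hqp.pos
  have hT : 0 < T := lt_of_lt_of_le hq hqT
  have hT0 : (0 : ℝ) < T := by exact_mod_cast hT
  have hq0 : (0 : ℝ) < q := by exact_mod_cast hq
  have hl : ∀ n, |lam n| ≤ 1 := fun n => by rcases hL.pm n with h | h <;> rw [h] <;> norm_num
  have hl2 : ∀ n, lam n * lam n = 1 := fun n => by rcases hL.pm n with h | h <;> rw [h] <;> norm_num
  set G := gs lam H q c with hG
  set G' := gs lam H 1 c with hG'
  have hTq : 0 < T / q := Nat.div_pos hqT hq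
  -- the multiples
  have hGG : ∀ m, 1 ≤ m → G (q * m) = G' m := by
    intro m hm
    rw [hG, hG']
    unfold gs
    have : ∑ h ∈ range (H + 1), c h * ((lam (q * m + q * h) : ℝ) : ℂ) =
        -∑ h ∈ range (H + 1), c h * ((lam (m + 1 * h) : ℝ) : ℂ) := by
      rw [← sum_neg_distrib]
      apply sum_congr rfl
      intro h _
      rw [← mul_add, hL.pr q (m + h) hqp (by omega), one_mul]
      push_cast
      ring
    rw [this, norm_neg]
  have h1 : ∑ m ∈ Ioc n (n + T), G m * (EB.D q m + 1) ≤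
      T * FS lam H 1 (T / q) (n / q) c + q * ((H : ℝ) + 1) ^ 2 := by
    have e1 : ∑ m ∈ Ioc n (n + T), G m * (EB.D q m + 1) =
        q * ∑ m ∈ Ioc (n / q) ((n + T) / q), G' m := by
      have e2 : ∀ m ∈ Ioc n (n + T), G m * (EB.D q m + 1) = if q ∣ m then q * G m else 0 := by
        intro m _
        rw [EBD_eq]
        split_ifs <;> ring
      rw [sum_congr rfl e2, sum_mult hq n (n + T) (fun m => q * G m), mul_sum]
      apply sum_congr rfl
      intro m hm
      rw [mem_Ioc] at hm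
      rw [hGG m ((Nat.zero_le _).trans_lt hm.1)]
    rw [e1]
    have h2 : ∑ m ∈ Ioc (n / q) ((n + T) / q), G' m ≤
        ∑ m ∈ Ioc (n / q) (n / q + T / q), G' m + ((H : ℝ) + 1) ^ 2 := by
      calc ∑ m ∈ Ioc (n / q) ((n + T) / q), G' m
          ≤ ∑ m ∈ Ioc (n / q) (n / q + T / q + 1), G' m := by
            apply sum_le_sum_of_subset_of_nonneg
            · exact Ioc_subset_Ioc_right (div_add_le hq n T)
            · intro m _ _; exact gs_nonneg _ _ _ _ _
        _ = ∑ m ∈ Ioc (n / q) (n / q + T / q), G' m + G' (n / q + T / q + 1) := by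
            rw [← sum_Ioc_consecutive G' (Nat.le_add_right (n / q) (T / q)) (Nat.le_succ _)]
            simp
        _ ≤ _ := by
            gcongr
            exact gs_le hl H 1 hc _
    have h3 : ∑ m ∈ Ioc (n / q) (n / q + T / q), G' m =
        ((T / q : ℕ) : ℝ) * FS lam H 1 (T / q) (n / q) c := by
      rw [FS_eq, mul_div_cancel₀ _ (by exact_mod_cast hTq.ne')]
    have h4 : (q : ℝ) * ((T / q : ℕ) : ℝ) ≤ T := by exact_mod_cast Nat.mul_div_le T q
    have h5 := FS_nonneg lam H 1 (T / q) (n / q) c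
    calc (q : ℝ) * ∑ m ∈ Ioc (n / q) ((n + T) / q), G' m
        ≤ q * (((T / q : ℕ) : ℝ) * FS lam H 1 (T / q) (n / q) c + ((H : ℝ) + 1) ^ 2) := by
          rw [← h3]; gcongr
      _ = (q * ((T / q : ℕ) : ℝ)) * FS lam H 1 (T / q) (n / q) c + q * ((H : ℝ) + 1) ^ 2 := by
          ring
      _ ≤ _ := by gcongr
  -- the rest
  set τ : ℝ := ∑ k ∈ Icc 1 H, |tq lam q T k n| with hτ
  have hHR : (0 : ℝ) ≤ H := Nat.cast_nonneg _
  have h2 : |∑ m ∈ Ioc n (n + T), G m * EB.D q m| ≤
      2 * ((H : ℝ) + 1) * (T * τ) + ((H : ℝ) + 1) ^ 2 * (6 * q * ((H : ℝ) + 1)) := by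
    have e1 : ∑ m ∈ Ioc n (n + T), G m * EB.D q m = ∑ h ∈ range (H + 1), ∑ h' ∈ range (H + 1),
        (c h * starRingEnd ℂ (c h')).re *
          ∑ m ∈ Ioc n (n + T), lam (m + q * h) * lam (m + q * h') * EB.D q m := by
      rw [hG]
      simp only [gs_expand, sum_mul, mul_sum]
      rw [sum_comm]
      apply sum_congr rfl
      intro h _
      rw [sum_comm]
      apply sum_congr rfl
      intro h' _
      apply sum_congr rfl
      intro m _
      ring
    rw [e1]
    refine (abs_sum_le_sum_abs _ _).trans ?_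
    calc ∑ h ∈ range (H + 1), |∑ h' ∈ range (H + 1), (c h * starRingEnd ℂ (c h')).re *
          ∑ m ∈ Ioc n (n + T), lam (m + q * h) * lam (m + q * h') * EB.D q m|
        ≤ ∑ h ∈ range (H + 1), ∑ h' ∈ range (H + 1),
          |∑ m ∈ Ioc n (n + T), lam (m + q * h) * lam (m + q * h') * EB.D q m| := by
          apply sum_le_sum
          intro h hh
          refine (abs_sum_le_sum_abs _ _).trans ?_
          apply sum_le_sum
          intro h' hh'
          rw [abs_mul]
          have h3 : |(c h * starRingEnd ℂ (c h')).re| ≤ 1 := by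
            refine (Complex.abs_re_le_norm _).trans ?_
            rw [norm_mul, Complex.norm_conj]
            exact mul_le_one₀ (hc h) (norm_nonneg _) (hc h')
          calc _ ≤ 1 * |∑ m ∈ Ioc n (n + T), lam (m + q * h) * lam (m + q * h') * EB.D q m| :=
                mul_le_mul_of_nonneg_right h3 (abs_nonneg _)
            _ = _ := one_mul _
      _ ≤ _ := by
          apply sum_pairs (fun k => |tq lam q T k n|) (fun k => abs_nonneg _) T
            (6 * q * ((H : ℝ) + 1)) hT0.le
          · intro h hh h' hh' hlt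
            have e : ∀ m, lam (m + q * h') = lam (m + q * h + q * (h' - h)) := by
              intro m
              congr 1
              rw [add_assoc, ← mul_add, Nat.add_sub_cancel' hlt.le]
            simp only [e]
            refine (mixed hl hq T n h (h' - h) hT).trans ?_
            have h3 : (h : ℝ) ≤ H := by exact_mod_cast hh
            nlinarith
          · intro h hh
            have e : ∀ m, lam (m + q * h) * lam (m + q * h) * EB.D q m = EB.D q m := by
              intro m; rw [hl2, one_mul]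
            simp only [e]
            refine (sum_D hq n T).trans ?_
            nlinarith
          · intro h hh h' hh' hgt
            have e : ∀ m, lam (m + q * h) * lam (m + q * h') * EB.D q m =
                lam (m + q * h') * lam (m + q * h' + q * (h - h')) * EB.D q m := by
              intro m
              rw [add_assoc m (q * h'), ← mul_add, Nat.add_sub_cancel' hgt.le]
              ring
            simp only [e]
            refine (mixed hl hq T n h' (h - h') hT).trans ?_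
            have h3 : (h' : ℝ) ≤ H := by exact_mod_cast hh'
            nlinarith
  have h3 : ∑ m ∈ Ioc n (n + T), G m = ∑ m ∈ Ioc n (n + T), G m * (EB.D q m + 1) -
      ∑ m ∈ Ioc n (n + T), G m * EB.D q m := by
    rw [← sum_sub_distrib]
    apply sum_congr rfl
    intro m _
    ring
  rw [FS_eq, ← hG, div_le_iff₀ hT0, h3]
  have h4 := neg_le_of_abs_le h2
  have hH1 : (1 : ℝ) ≤ (H : ℝ) + 1 := by linarith
  have h8 : (q : ℝ) * ((H : ℝ) + 1) ^ 2 ≤ q * ((H : ℝ) + 1) ^ 3 := by
    have h5 : ((H : ℝ) + 1) ^ 2 ≤ ((H : ℝ) + 1) ^ 3 := pow_le_pow_right₀ hH1 (by norm_num)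
    gcongr
  have h9 : (FS lam H 1 (T / q) (n / q) c + 2 * ((H : ℝ) + 1) * τ +
      20 * ((H : ℝ) + 1) ^ 3 * q / T) * T =
      T * FS lam H 1 (T / q) (n / q) c + 2 * ((H : ℝ) + 1) * (T * τ) +
        20 * (q * ((H : ℝ) + 1) ^ 3) := by
    have e : 20 * ((H : ℝ) + 1) ^ 3 * q / T * T = 20 * ((H : ℝ) + 1) ^ 3 * q :=
      div_mul_cancel₀ _ hT0.ne'
    calc (FS lam H 1 (T / q) (n / q) c + 2 * ((H : ℝ) + 1) * τ +
      20 * ((H : ℝ) + 1) ^ 3 * q / T) * T =
        T * FS lam H 1 (T / q) (n / q) c + 2 * ((H : ℝ) + 1) * (T * τ) +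
        20 * ((H : ℝ) + 1) ^ 3 * q / T * T := by ring
      _ = _ := by rw [e]; ring
  rw [h9]
  have h10 : ((H : ℝ) + 1) ^ 2 * (6 * q * ((H : ℝ) + 1)) = 6 * (q * ((H : ℝ) + 1) ^ 3) := by ring
  have h11 : 0 ≤ q * ((H : ℝ) + 1) ^ 3 := by positivity
  linarith

end Pool.Agent.H83.QP
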